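import Pool.Agent.H30.AV.Targets

/-!
# A homogeneous system of parameters
-/

set_option autoImplicit false

namespace Pool.Agent.H42.AV

open MvPolynomial Pool.Agent.H30.AV

attribute [local instance] MvPolynomial.gradedAlgebra

private lemma toHom {L τ : Type} [Field L] {I : Ideal (MvPolynomial τ L)} (h : IsHom I) :
    I.IsHomogeneous (homogeneousSubmodule τ L) := by
  intro i r hr
  have := h r hr i
  rw [← decomposition.decompose'_apply] at this
  exact this

private lemma ofHom {L τ : Type} [Field L] {I : Ideal (MvPolynomial τ L)}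
    (h : I.IsHomogeneous (homogeneousSubmodule τ L)) : IsHom I :=
  fun _ hg d => homogeneousComponent_mem_of_mem h hg d

private lemma hom_sup {L τ : Type} [Field L] {I : Ideal (MvPolynomial τ L)} (hI : IsHom I)
    (S : Set (MvPolynomial τ L)) (hS : ∀ s ∈ S, s.IsHomogeneous 1) :
    IsHom (I ⊔ Ideal.span S) :=
  ofHom ((toHom hI).sup (Ideal.homogeneous_span _ _ (fun x hx => ⟨1, hS x hx⟩)))

private lemma fin_mem {L τ : Type} [Field L] {Q : Ideal (MvPolynomial τ L)} (hQ : Q.IsPrime)
    (hQh : IsHom Q) (htr : Algebra.trdeg L (MvPolynomial τ L ⧸ Q) ≤ 0) (x : τ) : X x ∈ Q := by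
  have h0 : Algebra.trdeg L (MvPolynomial τ L ⧸ Q) = 0 := le_antisymm htr zero_le
  have hal := trdeg_eq_zero_iff.1 h0
  obtain ⟨f, hf0, hf⟩ := hal.isAlgebraic (Ideal.Quotient.mk Q (X x))
  have h1 : Polynomial.aeval (X x : MvPolynomial τ L) f ∈ Q := by
    rw [← Ideal.Quotient.eq_zero_iff_mem, ← Ideal.Quotient.mkₐ_eq_mk L,
      ← Polynomial.aeval_algHom_apply]
    exact hf
  have h2 := hQh _ h1 f.natDegree
  rw [Polynomial.aeval_eq_sum_range, map_sum] at h2
  have h3 : ∀ i ∈ Finset.range (f.natDegree + 1),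
      homogeneousComponent f.natDegree (f.coeff i • (X x : MvPolynomial τ L) ^ i) =
        if i = f.natDegree then f.coeff i • (X x : MvPolynomial τ L) ^ i else 0 := by
    intro i _
    rw [map_smul, homogeneousComponent_of_mem (n := i)
      ((mem_homogeneousSubmodule _ _).2 (isHomogeneous_X_pow x i))]
    by_cases h : i = f.natDegree
    · rw [if_pos h.symm, if_pos h]
    · rw [if_neg (Ne.symm h), if_neg h, smul_zero]
  rw [Finset.sum_congr rfl h3, Finset.sum_ite_eq' , if_pos (by simp)] at h2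
  have h4 : f.coeff f.natDegree ≠ 0 := by
    rw [Polynomial.coeff_natDegree]
    exact Polynomial.leadingCoeff_ne_zero.2 hf0
  have h5 : (X x : MvPolynomial τ L) ^ f.natDegree ∈ Q := by
    have h6 := Q.mul_mem_left (C (f.coeff f.natDegree)⁻¹) h2
    rwa [← smul_eq_C_mul, smul_smul, inv_mul_cancel₀ h4, one_smul] at h6
  exact hQ.mem_of_pow_mem _ h5

private lemma zero_tr {L τ : Type} [Field L] {Q : Ideal (MvPolynomial τ L)}
    (h : ∀ x, X x ∈ Q) : Algebra.trdeg L (MvPolynomial τ L ⧸ Q) = 0 := by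
  refine trdeg_eq_zero_iff.2 ⟨fun y => ?_⟩
  obtain ⟨g, rfl⟩ := Ideal.Quotient.mk_surjective y
  have h1 : ∃ c : L, g - C c ∈ Q := by
    induction g using MvPolynomial.induction_on with
    | C a => exact ⟨a, by simp⟩
    | add p q hp hq =>
      obtain ⟨c, hc⟩ := hp
      obtain ⟨d, hd⟩ := hq
      refine ⟨c + d, ?_⟩
      have : p + q - C (c + d) = (p - C c) + (q - C d) := by
        rw [C_add]
        ring
      rw [this]
      exact Q.add_mem hc hd
    | mul_X p n _ =>
      refine ⟨0, ?_⟩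
      rw [C_0, sub_zero]
      exact Q.mul_mem_left _ (h n)
  obtain ⟨c, hc⟩ := h1
  have h2 : Ideal.Quotient.mk Q g = algebraMap L (MvPolynomial τ L ⧸ Q) c := by
    rw [← sub_eq_zero]
    have h3 : algebraMap L (MvPolynomial τ L ⧸ Q) c = Ideal.Quotient.mk Q (C c) := rfl
    rw [h3, ← map_sub]
    exact Ideal.Quotient.eq_zero_iff_mem.2 hc
  rw [h2]
  exact isAlgebraic_algebraMap c

/-- a homogeneous system of parameters which starts with `T`, `T'` -/
theorem pf_NNS (hTRQ : T_TRQ) (hHMP : T_HMP) (hAVD : T_AVD) : T_NNS := by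
  intro L τ _ _ _ β P T T' hP hPh hT hT' htr
  have key : ∀ j ≤ β, ∃ t : Fin j → MvPolynomial τ L, (∀ i, (t i).IsHomogeneous 1) ∧
      ∀ Q : Ideal (MvPolynomial τ L), Q.IsPrime → IsHom Q → P ≤ Q → T ∈ Q → T' ∈ Q →
        (∀ i, t i ∈ Q) → Algebra.trdeg L (MvPolynomial τ L ⧸ Q) ≤ ((β - j : ℕ) : Cardinal) := by
    intro j
    induction j with
    | zero =>
      intro _
      exact ⟨Fin.elim0, fun i => i.elim0, fun Q h1 h2 h3 h4 h5 _ => htr Q h1 h2 h3 h4 h5⟩
    | succ j ih =>
      intro hj
      obtain ⟨t, ht, hQt⟩ := ih (by omega)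
      have hAh : IsHom (P ⊔ Ideal.span (insert T (insert T' (Set.range t)))) := by
        refine hom_sup hPh _ ?_
        rintro s (rfl | rfl | ⟨i, rfl⟩)
        · exact hT
        · exact hT'
        · exact ht i
      obtain ⟨s, hs1, hs2, -⟩ := hHMP L τ _ hAh
      classical
      obtain ⟨c, hc⟩ := hAVD L τ (s.filter fun Q => ∃ x, X x ∉ Q)
        (fun Q hQ => (Finset.mem_filter.1 hQ).2)
      refine ⟨Fin.cons (∑ x, C (c x) * X x) t, ?_, ?_⟩
      · intro i
        refine Fin.cases ?_ (fun i => ?_) i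
        · rw [Fin.cons_zero]
          refine IsHomogeneous.sum _ _ _ fun x _ => ?_
          exact (isHomogeneous_X L x).C_mul (c x)
        · rw [Fin.cons_succ]
          exact ht i
      · intro Q hQ hQh hPQ hTQ hT'Q hall
        have h0 : ∑ x, C (c x) * X x ∈ Q := by
          have := hall 0
          rwa [Fin.cons_zero] at this
        have h1 : ∀ i, t i ∈ Q := by
          intro i
          have := hall i.succ
          rwa [Fin.cons_succ] at this
        have hAQ : P ⊔ Ideal.span (insert T (insert T' (Set.range t))) ≤ Q := by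
          refine sup_le hPQ (Ideal.span_le.2 ?_)
          rintro s (rfl | rfl | ⟨i, rfl⟩)
          · exact hTQ
          · exact hT'Q
          · exact h1 i
        obtain ⟨Q', hQ's, hQ'Q⟩ := hs2 Q hQ hAQ
        obtain ⟨hQ'p, hQ'h, hAQ'⟩ := hs1 Q' hQ's
        by_cases hx : ∀ x, X x ∈ Q'
        · rw [zero_tr fun x => hQ'Q (hx x)]
          exact zero_le
        · have hx' : ∃ x, X x ∉ Q' := by
            by_contra h
            exact hx fun x => not_not.1 fun h' => h ⟨x, h'⟩
          have h2 := hc Q' (Finset.mem_filter.2 ⟨hQ's, hx'⟩)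
          have hlt : Q' < Q := lt_of_le_of_ne hQ'Q fun h => h2 (h ▸ h0)
          have h3 := hTRQ L τ Q' Q hQ'p hQ hlt
          have hsub : ∀ g ∈ insert T (insert T' (Set.range t)), g ∈ Q' := fun g hg =>
            hAQ' (Ideal.mem_sup_right (Ideal.subset_span hg))
          have h4 := hQt Q' hQ'p hQ'h (le_trans le_sup_left hAQ') (hsub _ (Or.inl rfl))
            (hsub _ (Or.inr (Or.inl rfl))) (fun i => hsub _ (Or.inr (Or.inr ⟨i, rfl⟩)))
          have h5 := h3.trans h4
          have h6 : ((β - j : ℕ) : Cardinal) = ((β - (j + 1) : ℕ) : Cardinal) + 1 := by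
            rw [show β - j = (β - (j + 1)) + 1 by omega]
            push_cast
            rfl
          rw [h6] at h5
          exact (Cardinal.add_le_add_iff_of_lt_aleph0 Cardinal.one_lt_aleph0).1 h5
  obtain ⟨t, ht, hQt⟩ := key β le_rfl
  refine ⟨Fin.cons T (Fin.cons T' t), ?_, ?_, ?_, ?_⟩
  · intro i
    refine Fin.cases ?_ (fun i => Fin.cases ?_ (fun i => ?_) i) i
    · exact hT
    · exact hT'
    · exact ht i
  · rfl
  · rfl
  · intro Q hQ hQh hPQ hall x
    have h1 : T ∈ Q := hall 0
    have h2 : T' ∈ Q := hall 1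
    have h3 : ∀ i, t i ∈ Q := fun i => hall i.succ.succ
    refine fin_mem hQ hQh ?_ x
    have := hQt Q hQ hQh hPQ h1 h2 h3
    simpa using this

end Pool.Agent.H42.AV
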